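import Pool.Agent.Helper75.SR.Goals1

/-!
# MP_d08e19_gt: packet SR-GAlg
-/

namespace Pool.Agent.Helper25.SR

open Pool.Agent.Helper75.SR
open scoped ContDiff Topology

variable {E : Type} [NormedAddCommGroup E] [NormedSpace ℝ E] {U : Set E} (S : LocSas E U)

include S in
theorem mem_nhds {x : E} (hx : x ∈ U) : U ∈ 𝓝 x := S.isOpen.mem_nhds hx

theorem g_diff {x : E} (hx : x ∈ U) : DifferentiableAt ℝ S.g x :=
  (S.g_smooth.contDiffAt (mem_nhds S hx)).differentiableAt (by simp)

theorem Gam_diff {x : E} (hx : x ∈ U) : DifferentiableAt ℝ S.Gam x :=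
  (S.Gam_smooth.contDiffAt (mem_nhds S hx)).differentiableAt (by simp)

theorem xi_diff (a : Fin 3) {x : E} (hx : x ∈ U) : DifferentiableAt ℝ (S.xi a) x :=
  ((S.xi_smooth a).contDiffAt (mem_nhds S hx)).differentiableAt (by simp)

theorem phi_diff (a : Fin 3) {x : E} (hx : x ∈ U) :
    DifferentiableAt ℝ (phiOf S.Gam (S.xi a)) x := by
  have h1 : DifferentiableAt ℝ (fun y => fderiv ℝ (S.xi a) y) x := by
    have h := ((S.xi_smooth a).contDiffAt (mem_nhds S hx)).fderiv_right (m := 1) (by
      norm_cast)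
    exact h.differentiableAt (by simp)
  have h2 : DifferentiableAt ℝ (fun y => (S.Gam y).flip (S.xi a y)) x := by
    have h3 : DifferentiableAt ℝ (fun y => (S.Gam y).flip) x := by
      have := ((ContinuousLinearMap.flipₗᵢ ℝ E E E).toContinuousLinearEquiv.toContinuousLinearMap).differentiableAt.comp x (Gam_diff S hx)
      exact this
    exact h3.clm_apply (xi_diff S a hx)
  exact (h1.add h2).neg

theorem g_ext {x : E} (hx : x ∈ U) {z : E} (h : ∀ v, S.g x v z = 0) : z = 0 := by
  by_contra hz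
  exact absurd (h z) (S.g_pos x hx z hz).ne'

theorem phi_apply (a : Fin 3) (x v : E) :
    S.phi a x v = -(fderiv ℝ (S.xi a) x v + S.Gam x v (S.xi a x)) := phiOf_apply _ _ _ _

/-- step 1 -/
theorem phi_xi_anti {x : E} (hx : x ∈ U) (a b : Fin 3) :
    S.phi a x (S.xi b x) = - S.phi b x (S.xi a x) := by
  have key : ∀ v, S.g x v (S.phi a x (S.xi b x) + S.phi b x (S.xi a x)) = 0 := by
    intro v
    have hd : fderiv ℝ (fun y => S.g y (S.xi a y) (S.xi b y)) x v = 0 := by
      have : (fun y => S.g y (S.xi a y) (S.xi b y)) =ᶠ[𝓝 x] fun _ => (if a = b then (1 : ℝ) else 0) := by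
        filter_upwards [mem_nhds S hx] with y hy
        exact S.orth y hy a b
      rw [this.fderiv_eq]
      simp
    have h1 : HasFDerivAt (fun y => S.g y (S.xi a y)) _ x :=
      (g_diff S hx).hasFDerivAt.clm_apply (xi_diff S a hx).hasFDerivAt
    have h2 := h1.clm_apply (xi_diff S b hx).hasFDerivAt
    rw [h2.fderiv] at hd
    simp only [ContinuousLinearMap.add_apply, ContinuousLinearMap.comp_apply,
      ContinuousLinearMap.flip_apply] at hd
    rw [S.compat x hx] at hd
    have k1 := S.killing x hx a v (S.xi b x)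
    have k2 := S.killing x hx b v (S.xi a x)
    have e1 : S.g x (phiOf S.Gam (S.xi a) x v) (S.xi b x)
        = -(S.g x (fderiv ℝ (S.xi a) x v) (S.xi b x)) - S.g x (S.Gam x v (S.xi a x)) (S.xi b x) := by
      rw [phiOf_apply, map_neg, map_add, ContinuousLinearMap.neg_apply,
        ContinuousLinearMap.add_apply]
      ring
    have e2 : S.g x (phiOf S.Gam (S.xi b) x v) (S.xi a x)
        = -(S.g x (S.xi a x) (fderiv ℝ (S.xi b) x v)) - S.g x (S.xi a x) (S.Gam x v (S.xi b x)) := by
      rw [S.g_symm x hx, phiOf_apply, map_neg, map_add]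
      ring
    rw [map_add]
    change S.g x v (phiOf S.Gam (S.xi a) x (S.xi b x)) + S.g x v (phiOf S.Gam (S.xi b) x (S.xi a x)) = 0
    linarith
  have := g_ext S hx key
  exact eq_neg_of_add_eq_zero_left this

theorem phi_self {x : E} (hx : x ∈ U) (a : Fin 3) : S.phi a x (S.xi a x) = 0 := by
  have h := phi_xi_anti S hx a a
  have : (2 : ℝ) • S.phi a x (S.xi a x) = 0 := by
    rw [two_smul]; nth_rewrite 1 [h]; simp
  simpa using this

theorem phi_succ {x : E} (hx : x ∈ U) (a : Fin 3) :
    S.phi a x (S.xi (a + 1) x) = S.xi (a + 2) x := by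
  have h := S.lie x hx a
  have h1 := phi_xi_anti S hx (a + 1) a
  have e : S.phi a x (S.xi (a + 1) x) - S.phi (a + 1) x (S.xi a x) = (2 : ℝ) • S.xi (a + 2) x := by
    rw [← h, phi_apply, phi_apply, S.Gam_symm x hx (S.xi a x)]
    abel
  rw [h1, sub_neg_eq_add, ← two_smul ℝ] at e
  exact smul_right_injective E (two_ne_zero) e

theorem phi_succ2 {x : E} (hx : x ∈ U) (a : Fin 3) :
    S.phi a x (S.xi (a + 2) x) = - S.xi (a + 1) x := by
  have h1 := phi_xi_anti S hx a (a + 2)
  have h2 := phi_succ S hx (a + 2)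
  have e1 : a + 2 + 1 = a := by fin_cases a <;> rfl
  have e2 : a + 2 + 2 = a + 1 := by fin_cases a <;> rfl
  rw [e1, e2] at h2
  rw [h1, h2]

/-- step 3: general form -/
theorem phi_phi {x : E} (hx : x ∈ U) (a b : Fin 3) (c : E → E) (v : E)
    (hc : DifferentiableAt ℝ c x) (h : ∀ y ∈ U, S.phi a y (S.xi b y) = c y) :
    S.phi a x (S.phi b x v) = S.g x v (S.xi b x) • S.xi a x - S.g x (S.xi a x) (S.xi b x) • v
      - (fderiv ℝ c x v + S.Gam x v (c x)) := by
  have hd : fderiv ℝ (fun y => S.phi a y (S.xi b y)) x v = fderiv ℝ c x v := by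
    have : (fun y => S.phi a y (S.xi b y)) =ᶠ[𝓝 x] c := by
      filter_upwards [mem_nhds S hx] with y hy
      exact h y hy
    rw [this.fderiv_eq]
  have h2 : HasFDerivAt (fun y => S.phi a y (S.xi b y)) _ x :=
    (phi_diff S a hx).hasFDerivAt.clm_apply (xi_diff S b hx).hasFDerivAt
  rw [h2.fderiv] at hd
  simp only [ContinuousLinearMap.add_apply, ContinuousLinearMap.comp_apply,
      ContinuousLinearMap.flip_apply] at hd
  have hs := S.sasaki x hx a v (S.xi b x)
  have hcx : phiOf S.Gam (S.xi a) x (S.xi b x) = c x := h x hx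
  rw [hcx] at hs
  have hb : fderiv ℝ (S.xi b) x v = - S.phi b x v - S.Gam x v (S.xi b x) := by
    rw [phi_apply]; abel
  rw [hb, map_sub, map_neg] at hd
  rw [← hs, ← hd]
  change phiOf S.Gam (S.xi a) x (S.phi b x v) = _
  abel

theorem gAlg : GAlg := by
  intro E _ _ U S x hx a v
  refine ⟨phi_self S hx a, phi_succ S hx a, phi_succ2 S hx a, ?_, ?_, ?_⟩
  · have h := phi_phi S hx a a (fun _ => 0) v (by fun_prop) (fun y hy => phi_self S hy a)
    rw [h, S.orth x hx, S.g_symm x hx v]
    simp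
    abel
  · have h := phi_phi S hx a (a + 1) (S.xi (a + 2)) v (xi_diff S _ hx)
      (fun y hy => phi_succ S hy a)
    have hne : ¬ (a = a + 1) := by fin_cases a <;> decide
    rw [h, S.orth x hx, S.g_symm x hx v, if_neg hne, phi_apply S (a + 2) x v]
    simp
    abel
  · have h := phi_phi S hx a (a + 2) (fun y => - S.xi (a + 1) y) v (xi_diff S _ hx).neg
      (fun y hy => phi_succ2 S hy a)
    have hne : ¬ (a = a + 2) := by fin_cases a <;> decide
    have hf : fderiv ℝ (fun y => - S.xi (a + 1) y) x v = - fderiv ℝ (S.xi (a + 1)) x v := by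
      have h0 : HasFDerivAt (fun y => - S.xi (a + 1) y) (-(fderiv ℝ (S.xi (a + 1)) x)) x :=
        (xi_diff S (a + 1) hx).hasFDerivAt.neg
      rw [h0.fderiv]; rfl
    rw [h, S.orth x hx, S.g_symm x hx v, if_neg hne, hf, phi_apply S (a + 1) x v]
    simp
    abel

end Pool.Agent.Helper25.SR
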